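import Mathlib
import Pool.Agent.H25.StrongDist

set_option autoImplicit false

universe u

namespace Pool.Agent.Results.MP_77bbd4_lc.Exists

open Cardinal Set

/-- Strong `<κ`-distributivity. -/
def StronglyDistributive (P : Type u) [PartialOrder P] (κ : Cardinal.{u}) : Prop :=
  ∀ D : Ordinal.{u} → Set P,
    (∀ α, α < κ.ord → IsLowerSet (D α) ∧ ∀ p, ∃ q ∈ D α, q ≤ p) →
    ∀ p : P, ∃ s : Ordinal.{u} → P, s 0 ≤ p ∧
      (∀ α β, α < β → β < κ.ord → s β ≤ s α) ∧ ∀ α, α < κ.ord → s α ∈ D α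

/-- COM moves at the even ordinals (these include `0` and the limit ordinals). -/
def ComTurn (α : Ordinal.{u}) : Prop := ∃ γ, α = 2 * γ

/-- COM has a winning strategy in the completeness game of length `δ`. -/
def StrategicallyClosed (P : Type u) [PartialOrder P] [OrderTop P] (δ : Ordinal.{u}) : Prop :=
  ∃ σ : (α : Ordinal.{u}) → (Iio α → P) → P, (∀ p, σ 0 p = ⊤) ∧
    ∀ α, α < δ → ComTurn α → ∀ p : Iio α → P,
      (∀ β γ : Iio α, β < γ → p γ ≤ p β) →
      (∀ β : Iio α, ComTurn (β : Ordinal.{u}) →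
        p β = σ β (fun γ => p ⟨γ, lt_trans (show (γ : Ordinal.{u}) < β from γ.2) β.2⟩)) →
      ∀ β, σ α p ≤ p β

open Pool.Agent.H25.StrongDist in
theorem result (κ : Cardinal.{u}) (hκ : ℵ₀ < κ) :
    ∃ (P : Type u) (_ : PartialOrder P) (_ : OrderTop P),
      StronglyDistributive P κ ∧ ¬ StrategicallyClosed P κ.ord := by
  classical
  obtain ⟨W, inst, m, X, h, hm, hmk, hkm, hW, hXE, hX1, hX2⟩ := setup κ hκ.le
  refine ⟨Cond κ X, inferInstance, top κ hXE, fun D hD p => ?_, ?_⟩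
  · obtain ⟨s, hs1, hs2, hs3⟩ := dist h hκ.le (Order.lt_succ κ) hm hmk hkm hW hX2
      (I := κ.ord.ToType) (by simp) (fun i => D (Ordinal.ToType.mk.symm i))
      (fun i => (hD _ (Ordinal.ToType.mk.symm i).2).2) p
    refine ⟨fun α => if hα : α < κ.ord then s (Ordinal.ToType.mk ⟨α, hα⟩) else p, ?_, ?_, ?_⟩
    · by_cases h0 : (0 : Ordinal.{u}) < κ.ord
      · simp only [dif_pos h0]
        exact hs1 _
      · simp only [dif_neg h0]
        exact le_refl _
    · intro α β hαβ hβ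
      simp only [dif_pos hβ, dif_pos (hαβ.trans hβ)]
      exact hs2 _ _ (Ordinal.ToType.mk.strictMono (show (⟨α, hαβ.trans hβ⟩ : Iio κ.ord) < ⟨β, hβ⟩
        from hαβ))
    · intro α hα
      simp only [dif_pos hα]
      simpa using hs3 (Ordinal.ToType.mk ⟨α, hα⟩)
  · rintro ⟨σ, _, hσ⟩
    exact not_closed h hκ.le hm hmk hkm hW hXE hX1 σ
      (fun α hα => hσ α (lt_of_le_of_lt hα (omega0_lt_ord.2 hκ)))

end Pool.Agent.Results.MP_77bbd4_lc.Exists
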